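import Mathlib

set_option autoImplicit false

/-! The alternating calculus in a ring with `w a ^ 3 = 0` and `∑ a, w a * u a l = 0`. -/

open Finset

namespace Pool.Agent.H651Z.PD

variable {B : Type} [CommRing B] {β : Type} [Fintype β] [DecidableEq β]

/-- the monomial in the `w a` with exponent vector `n` -/
def mon (w : Option β → B) (n : Option β → ℕ) : B := ∏ a, w a ^ n a

/-- `∏ w b ^ 2` divided by `w a` -/
def ee (w : Option β → B) (a : Option β) : B := mon w (fun c => if c = a then 1 else 2)

theorem mon_mul (w : Option β → B) (n : Option β → ℕ) (c : Option β) :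
    mon w n * w c = mon w (fun d => if d = c then n d + 1 else n d) := by
  unfold mon
  rw [← Finset.mul_prod_erase univ _ (mem_univ c), ← Finset.mul_prod_erase univ _ (mem_univ c)]
  have : ∏ x ∈ univ.erase c, w x ^ (if x = c then n x + 1 else n x) =
      ∏ x ∈ univ.erase c, w x ^ n x := by
    refine prod_congr rfl fun x hx => ?_
    rw [if_neg (ne_of_mem_erase hx)]
  rw [this]
  simp only [if_true]
  ring

omit [DecidableEq β] in
theorem mon_zero (w : Option β → B) (hw : ∀ a, w a ^ 3 = 0) (n : Option β → ℕ) (c : Option β)
    (h : n c = 3) : mon w n = 0 :=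
  prod_eq_zero (mem_univ c) (by rw [h, hw])

section
variable (w : Option β → B) (u : Option β → β → B) (hw : ∀ a, w a ^ 3 = 0)
  (hf : ∀ l, ∑ a, w a * u a l = 0)
include hw hf

theorem r0 (a : Option β) (l : β) : u a l * ee w a = 0 := by
  have h := congrArg (fun x => mon w (fun c => if c = a then 0 else 2) * x) (hf l)
  simp only [mul_zero, mul_sum] at h
  rw [sum_eq_single a] at h
  · rw [← mul_assoc, mon_mul] at h
    rw [← h, mul_comm, ee]
    congr 2
    funext d
    by_cases hd : d = a <;> simp [hd]
  · intro c _ hc
    rw [← mul_assoc, mon_mul, mon_zero w hw _ c (by simp [hc]), zero_mul]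
  · simp

theorem r1 (a b : Option β) (l : β) : u a l * ee w b = -(u b l * ee w a) := by
  by_cases hab : a = b
  · subst hab
    rw [r0 w u hw hf, neg_zero]
  have h := congrArg (fun x => mon w (fun c => if c = a ∨ c = b then 1 else 2) * x) (hf l)
  simp only [mul_zero, mul_sum] at h
  rw [sum_eq_add a b hab] at h
  · rw [← mul_assoc, mon_mul, ← mul_assoc, mon_mul] at h
    have e1 : ee w b = mon w fun d =>
        if d = a then (if d = a ∨ d = b then 1 else 2) + 1 else if d = a ∨ d = b then 1 else 2 := by
      unfold ee
      congr 1
      funext d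
      by_cases hd : d = a
      · simp [hd, hab]
      · by_cases hd' : d = b <;> simp [hd, hd', Ne.symm hab]
    have e2 : ee w a = mon w fun d =>
        if d = b then (if d = a ∨ d = b then 1 else 2) + 1 else if d = a ∨ d = b then 1 else 2 := by
      unfold ee
      congr 1
      funext d
      by_cases hd : d = b
      · simp [hd, Ne.symm hab]
      · by_cases hd' : d = a <;> simp [hd, hd', hab]
    rw [← e1, ← e2] at h
    linear_combination h
  · intro c _ hc
    rw [← mul_assoc, mon_mul, mon_zero w hw _ c (by simp [hc.1, hc.2]), zero_mul]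
  · simp
  · simp

theorem r2 (h2 : IsUnit (2 : B)) (a b c : Option β) (l : β) : u a l * u b l * ee w c = 0 := by
  have h1 := r1 w u hw hf b c l
  have h3 := r1 w u hw hf a b l
  have h4 := r1 w u hw hf c a l
  apply h2.mul_left_cancel
  linear_combination u a l * h1 - u c l * h3 + u b l * h4

end

/-- the multilinear expression attached to a map `σ` -/
def TT (w : Option β → B) (u : Option β → β → B) (σ : Option β → Option β) : B :=
  ee w (σ none) * ∏ l, u (σ (some l)) l

/-- the same with the factor in slot `l` left out -/
def TT' (w : Option β → B) (u : Option β → β → B) (σ : Option β → Option β) (l : β) : B :=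
  ee w (σ none) * ∏ j ∈ univ.erase l, u (σ (some j)) j

theorem TT_eq (w : Option β → B) (u : Option β → β → B) (σ : Option β → Option β) (l : β) :
    TT w u σ = TT' w u σ l * u (σ (some l)) l := by
  unfold TT TT'
  rw [← Finset.mul_prod_erase univ _ (mem_univ l)]
  ring

section
variable (w : Option β → B) (u : Option β → β → B) (hw : ∀ a, w a ^ 3 = 0)
  (hf : ∀ l, ∑ a, w a * u a l = 0)
include hw hf

theorem r3 (σ : Option β → Option β) (l : β) :
    TT w u (σ ∘ Equiv.swap none (some l)) = -TT w u σ := by
  rw [TT_eq w u _ l, TT_eq w u σ l]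
  unfold TT'
  have : ∏ j ∈ univ.erase l, u ((σ ∘ Equiv.swap none (some l)) (some j)) j =
      ∏ j ∈ univ.erase l, u (σ (some j)) j := by
    refine prod_congr rfl fun j hj => ?_
    have hjl : j ≠ l := ne_of_mem_erase hj
    rw [Function.comp_apply, Equiv.swap_apply_of_ne_of_ne (by simp) (by simpa using hjl)]
  rw [this]
  simp only [Function.comp_apply, Equiv.swap_apply_left, Equiv.swap_apply_right]
  have h := r1 w u hw hf (σ none) (σ (some l)) l
  linear_combination (∏ j ∈ univ.erase l, u (σ (some j)) j) * h

theorem r4a (σ : Option β → Option β) (l : β) (h : σ none = σ (some l)) : TT w u σ = 0 := by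
  rw [TT_eq w u σ l]
  unfold TT'
  have h0 := r0 w u hw hf (σ none) l
  rw [← h]
  linear_combination (∏ j ∈ univ.erase l, u (σ (some j)) j) * h0

theorem r4 (σ : Option β → Option β) (i : Option β) (l : β) (hil : i ≠ some l)
    (h : σ i = σ (some l)) : TT w u σ = 0 := by
  cases i with
  | none => exact r4a w u hw hf σ l h
  | some j =>
    have h3 := r3 w u hw hf σ j
    have h4 := r4a w u hw hf (σ ∘ Equiv.swap none (some j)) l (by
      rw [Function.comp_apply, Function.comp_apply, Equiv.swap_apply_left,
        Equiv.swap_apply_of_ne_of_ne (by simp) (Ne.symm hil), h])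
    rw [h4] at h3
    exact neg_eq_zero.1 h3.symm

theorem r5 (a : Option β) (l : β) :
    ∃ ε : B, ε * TT w u (Equiv.swap (some l) a) = TT w u id := by
  by_cases hal : a = some l
  · subst hal
    refine ⟨1, ?_⟩
    rw [Equiv.swap_self, one_mul]
    rfl
  refine ⟨-1, ?_⟩
  cases a with
  | none =>
    have h := r3 w u hw hf id l
    rw [Function.id_comp, Equiv.swap_comm] at h
    rw [h]
    ring
  | some j =>
    have h1 := r3 w u hw hf id l
    have h2 := r3 w u hw hf (id ∘ Equiv.swap none (some l)) j
    have h3 := r3 w u hw hf ((id ∘ Equiv.swap none (some l)) ∘ Equiv.swap none (some j)) l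
    have e : (((id ∘ Equiv.swap none (some l)) ∘ Equiv.swap none (some j)) ∘
        Equiv.swap none (some l)) = Equiv.swap (some l) (some j) := by
      have hjl : j ≠ l := by simpa using hal
      funext x
      simp only [Function.comp_apply, id, Equiv.swap_apply_def]
      by_cases x0 : x = none
      · simp [x0, Ne.symm hjl]
      · by_cases x1 : x = some l
        · simp [x1, hjl]
        · by_cases x2 : x = some j
          · simp [x2, hjl]
          · simp [x0, x1, x2]
    rw [e] at h3
    rw [h3, h2, h1]
    ring

/-- dual elements for the `u a l` -/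
theorem dual (h2 : IsUnit (2 : B)) (a : Option β) (l : β) :
    ∃ t : B, t * u a l = TT w u id ∧ ∀ b j, (b, j) ≠ (a, l) → t * u b j = 0 := by
  obtain ⟨ε, hε⟩ := r5 w u hw hf a l
  refine ⟨ε * TT' w u (Equiv.swap (some l) a) l, ?_, ?_⟩
  · rw [← hε, TT_eq w u _ l, Equiv.swap_apply_left]
    ring
  · intro b j hbj
    by_cases hjl : j = l
    · subst hjl
      have hba : b ≠ a := fun e => hbj (by rw [e])
      let σ : Option β → Option β := Function.update (Equiv.swap (some j) a) (some j) b
      have h1 : TT w u σ = TT' w u (Equiv.swap (some j) a) j * u b j := by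
        rw [TT_eq w u σ j]
        have : σ (some j) = b := by simp [σ]
        rw [this]
        congr 1
        unfold TT'
        have : σ none = Equiv.swap (some j) a none := by simp [σ]
        rw [this]
        congr 1
        refine prod_congr rfl fun i hi => ?_
        have hij : i ≠ j := ne_of_mem_erase hi
        simp [σ, hij]
      have hne : Equiv.swap (some j) a b ≠ some j := by
        intro e
        apply hba
        have := congrArg (Equiv.swap (some j) a) e
        simpa using this
      have h0 := r4 w u hw hf σ (Equiv.swap (some j) a b) j hne (by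
        simp [σ, Function.update_of_ne hne])
      rw [mul_assoc, ← h1, h0, mul_zero]
    · unfold TT'
      rw [← Finset.mul_prod_erase _ _ (mem_erase.2 ⟨hjl, mem_univ j⟩)]
      have h := r2 w u hw hf h2 b (Equiv.swap (some l) a (some j)) (Equiv.swap (some l) a none) j
      linear_combination (ε * ∏ x ∈ (univ.erase l).erase j, u (Equiv.swap (some l) a (some x)) x) * h

end

end Pool.Agent.H651Z.PD
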