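import Mathlib

set_option autoImplicit false

/-! A module of projective dimension at most `k` has no nonzero element killed by a weakly
regular sequence of length greater than `k`. -/

open CategoryTheory RingTheory.Sequence Function

namespace Pool.Agent.H651Z.PD

variable {R : Type} [CommRing R]

/-- `M` has a left resolution of length at most `k` by modules on which `ys` is weakly regular. -/
def Res (R : Type) [CommRing R] : ℕ → List R → ModuleCat.{0} R → Prop
  | 0, ys, M => IsWeaklyRegular M ys
  | k + 1, ys, M => ∃ (P M' : ModuleCat.{0} R) (ι : M' →ₗ[R] P) (π : P →ₗ[R] M),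
      IsWeaklyRegular P ys ∧ Injective ι ∧ Surjective π ∧ Function.Exact ι π ∧ Res R k ys M'

theorem reg_of_inj {M N : Type} [AddCommGroup M] [Module R M] [AddCommGroup N] [Module R N]
    (f : M →ₗ[R] N) (hf : Injective f) {y : R} (h : IsSMulRegular N y) : IsSMulRegular M y := by
  intro a b hab
  apply hf
  apply h
  have : f (y • a) = f (y • b) := congrArg f hab
  simpa using this

theorem Res.quot (y : R) (ys : List R) : ∀ (k : ℕ) (M : ModuleCat.{0} R),
    Res R k (y :: ys) M → IsSMulRegular M y →
      Res R k ys (ModuleCat.of R (QuotSMulTop y M))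
  | 0, M, h, _ => ((isWeaklyRegular_cons_iff M y ys).1 h).2
  | k + 1, M, h, hy => by
    obtain ⟨P, M', ι, π, hP, hι, hπ, hex, hres⟩ := h
    obtain ⟨hP1, hP2⟩ := (isWeaklyRegular_cons_iff P y ys).1 hP
    refine ⟨ModuleCat.of R (QuotSMulTop y P), ModuleCat.of R (QuotSMulTop y M'),
      QuotSMulTop.map y ι, QuotSMulTop.map y π, hP2, ?_, QuotSMulTop.map_surjective y hπ,
      QuotSMulTop.map_exact y hex hπ, Res.quot y ys k M' hres (reg_of_inj ι hι hP1)⟩
    rw [injective_iff_map_eq_zero]
    intro x hx
    obtain ⟨m, rfl⟩ := Submodule.Quotient.mk_surjective _ x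
    rw [QuotSMulTop.map_apply_mk, Submodule.Quotient.mk_eq_zero] at hx
    rw [Submodule.Quotient.mk_eq_zero]
    obtain ⟨p, -, hp⟩ := (Submodule.mem_smul_pointwise_iff_exists _ _ _).1 hx
    have h1 : y • π p = y • (0 : M) := by
      rw [← map_smul, hp, smul_zero]
      exact hex.apply_apply_eq_zero m
    have h2 : π p = 0 := hy h1
    obtain ⟨q, rfl⟩ := (hex p).1 h2
    have : y • q = m := hι (by rw [map_smul, hp])
    rw [← this]
    exact Submodule.smul_mem_pointwise_smul _ _ _ Submodule.mem_top

theorem Res.no_socle : ∀ (k : ℕ) (ys : List R) (M : ModuleCat.{0} R),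
    Res R k ys M → k < ys.length → ∀ s : M, (∀ y ∈ ys, y • s = 0) → s = 0
  | _, [], _, _, hl, _, _ => by simp at hl
  | 0, y :: ys, M, h, _, s, hs => by
    have h1 := ((isWeaklyRegular_cons_iff M y ys).1 h).1
    apply h1
    have := hs y (by simp)
    simp only [this, smul_zero]
  | k + 1, y :: ys, M, h, hl, s, hs => by
    obtain ⟨P, M', ι, π, hP, hι, hπ, hex, hres⟩ := h
    obtain ⟨hP1, -⟩ := (isWeaklyRegular_cons_iff P y ys).1 hP
    have hq := Res.quot y ys k M' hres (reg_of_inj ι hι hP1)
    obtain ⟨p, rfl⟩ := hπ s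
    have key : ∀ z ∈ y :: ys, ∃ m : M', ι m = z • p := by
      intro z hz
      exact (hex (z • p)).1 (by rw [map_smul]; exact hs z hz)
    obtain ⟨m, hm⟩ := key y (by simp)
    have h0 := Res.no_socle k ys _ hq (by simpa using hl) (Submodule.Quotient.mk m) (by
      intro z hz
      obtain ⟨m', hm'⟩ := key z (by simp [hz])
      have e : z • m = y • m' := hι (by rw [map_smul, map_smul, hm, hm', smul_comm])
      change (Submodule.Quotient.mk (z • m) : QuotSMulTop y M') = 0
      rw [Submodule.Quotient.mk_eq_zero, e]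
      exact Submodule.smul_mem_pointwise_smul _ _ _ Submodule.mem_top)
    have h1 : (Submodule.Quotient.mk m : QuotSMulTop y M') = 0 := h0
    rw [Submodule.Quotient.mk_eq_zero] at h1
    obtain ⟨q, -, hq'⟩ := (Submodule.mem_smul_pointwise_iff_exists _ _ _).1 h1
    have h2 : y • ι q = y • p := by rw [← map_smul, hq', hm]
    have h3 : ι q = p := hP1 h2
    rw [← h3]
    exact hex.apply_apply_eq_zero q

theorem reg_of_projective (ys : List R) (hys : IsWeaklyRegular R ys) (P : Type) [AddCommGroup P]
    [Module R P] [Module.Projective R P] : IsWeaklyRegular P ys :=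
  ((TensorProduct.rid R P).isWeaklyRegular_congr ys).1 (hys.isWeaklyRegular_lTensor (M₂ := P))

theorem res_of_pd (ys : List R) (hys : IsWeaklyRegular R ys) : ∀ (k : ℕ) (M : ModuleCat.{0} R),
    HasProjectiveDimensionLT M (k + 1) → Res R k ys M
  | 0, M, h => by
    have : Projective M := projective_iff_hasProjectiveDimensionLT_one.2 h
    have : Module.Projective R M := (IsProjective.iff_projective (P := M)).2 this
    exact reg_of_projective ys hys M
  | k + 1, M, h => by
    let π : (M →₀ R) →ₗ[R] M := Finsupp.linearCombination R id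
    have hπ : Surjective π := Finsupp.linearCombination_surjective R surjective_id
    have hex : Function.Exact (LinearMap.ker π).subtype π := LinearMap.exact_subtype_ker_map π
    let S : ShortComplex (ModuleCat.{0} R) :=
      ShortComplex.mk (X₁ := ModuleCat.of R (LinearMap.ker π)) (X₂ := ModuleCat.of R (M →₀ R))
        (X₃ := M) (ModuleCat.ofHom (LinearMap.ker π).subtype) (ModuleCat.ofHom π)
        (by ext x; simp)
    have hS : S.ShortExact :=
      { exact := (ShortComplex.ShortExact.moduleCat_exact_iff_function_exact S).2 hex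
        mono_f := (ModuleCat.mono_iff_injective _).2 (LinearMap.ker π).injective_subtype
        epi_g := (ModuleCat.epi_iff_surjective _).2 hπ }
    have hP : Projective S.X₂ := (IsProjective.iff_projective (P := M →₀ R)).1 inferInstance
    have h1 := (hS.hasProjectiveDimensionLT_X₃_iff k hP).1 h
    exact ⟨ModuleCat.of R (M →₀ R), ModuleCat.of R (LinearMap.ker π), (LinearMap.ker π).subtype,
      π, reg_of_projective ys hys _, (LinearMap.ker π).injective_subtype, hπ, hex,
      res_of_pd ys hys k _ h1⟩

theorem no_socle (k : ℕ) (M : ModuleCat.{0} R) (h : HasProjectiveDimensionLT M (k + 1))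
    (ys : List R) (hys : IsWeaklyRegular R ys) (hl : k < ys.length) (s : M)
    (hs : ∀ y ∈ ys, y • s = 0) : s = 0 :=
  Res.no_socle k ys M (res_of_pd ys hys k M h) hl s hs

theorem pd_of_resolution (M : ModuleCat.{0} R) (P : ProjectiveResolution M) (c : ℕ)
    (h : ∀ i, c < i → Limits.IsZero (P.complex.X i)) : HasProjectiveDimensionLT M (c + 1) := by
  rw [hasProjectiveDimensionLT_iff]
  intro i hi Y e
  obtain ⟨f, hf, rfl⟩ := P.extMk_surjective e (i + 1) rfl
  have : f = 0 := (h i (by omega)).eq_of_src _ _
  subst this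
  exact P.extMk_zero (i + 1) rfl

open MvPolynomial in
theorem vars_regular {σ K : Type} [CommRing K] (L : List σ) (hL : L.Nodup) :
    IsWeaklyRegular (MvPolynomial σ K) (L.map (X : σ → MvPolynomial σ K)) := by
  classical
  rw [isWeaklyRegular_iff]
  intro i hi
  have hi' : i < L.length := by simpa using hi
  have e1 : (Ideal.ofList ((L.map (X : σ → MvPolynomial σ K)).take i) • ⊤ :
      Submodule (MvPolynomial σ K) (MvPolynomial σ K)) =
      Ideal.span (X '' {j | j ∈ L.take i}) := by
    rw [smul_eq_mul, Ideal.mul_top, Ideal.ofList, ← List.map_take]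
    congr 1
    ext p
    simp only [List.mem_map, Set.mem_ofPred_eq, Set.mem_image]
  have hnot : L[i] ∉ L.take i := by
    intro hmem
    obtain ⟨j, hj, hj'⟩ := List.getElem_of_mem hmem
    rw [List.length_take] at hj
    rw [List.getElem_take] at hj'
    have := (List.Nodup.getElem_inj_iff hL).1 hj'
    omega
  rw [isSMulRegular_quotient_iff_mem_of_smul_mem]
  intro p hp
  rw [e1] at hp ⊢
  rw [List.getElem_map, smul_eq_mul, mem_ideal_span_X_image] at hp
  rw [mem_ideal_span_X_image]
  intro m hm
  have hm' : Finsupp.single L[i] 1 + m ∈ (X L[i] * p : MvPolynomial σ K).support := by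
    rw [mem_support_iff, coeff_X_mul]
    exact mem_support_iff.1 hm
  obtain ⟨j, hj, hj'⟩ := hp _ hm'
  refine ⟨j, hj, ?_⟩
  have hne : L[i] ≠ j := fun e => hnot (e ▸ hj)
  simpa [Finsupp.single_apply, hne] using hj'

end Pool.Agent.H651Z.PD
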