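import Pool.Agent.H651Z.PD.Depth
import Pool.Agent.H651Z.PD.Alt

set_option autoImplicit false
set_option linter.unusedSectionVars false

/-! An ideal generated by `4k+2` quadrics whose quotient has a nonzero element killed by
`(k+1)k^2` of the variables. -/

open Finset MvPolynomial

namespace Pool.Agent.H651Z.PD

variable {β : Type} [Fintype β] [DecidableEq β]

/-- variables: `x`, `u`, `z` -/
abbrev Var (β : Type) : Type := (Option β × Bool) ⊕ ((Option β × β) ⊕ ((Option β × β) × β))

/-- generators -/
abbrev Gen (β : Type) : Type := (Option β × Bool) ⊕ (β ⊕ β)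

noncomputable def xw (a : Option β) : MvPolynomial (Var β) ℚ :=
  X (.inl (a, true)) + X (.inl (a, false))

noncomputable def xu (a : Option β) (l : β) : MvPolynomial (Var β) ℚ := X (.inr (.inl (a, l)))

noncomputable def gen : Gen β → MvPolynomial (Var β) ℚ
  | .inl i => X (.inl i) ^ 2
  | .inr (.inl l) => ∑ a, xw a * xu a l
  | .inr (.inr r) => ∑ p : Option β × β, xu p.1 p.2 * X (.inr (.inr (p, r)))

theorem gen_hom (i : Gen β) : (gen i).IsHomogeneous 2 := by
  rcases i with i | l | r
  · exact (isHomogeneous_X ℚ _).pow 2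
  · exact IsHomogeneous.sum _ _ _ fun a _ =>
      ((isHomogeneous_X ℚ _).add (isHomogeneous_X ℚ _)).mul (isHomogeneous_X ℚ _)
  · exact IsHomogeneous.sum _ _ _ fun a _ => (isHomogeneous_X ℚ _).mul (isHomogeneous_X ℚ _)

noncomputable def II (β : Type) [Fintype β] : Ideal (MvPolynomial (Var β) ℚ) :=
  Ideal.span (Set.range gen)

theorem gen_zero (i : Gen β) : Ideal.Quotient.mk (II β) (gen i) = 0 :=
  Ideal.Quotient.eq_zero_iff_mem.2 (Ideal.subset_span ⟨i, rfl⟩)

theorem map_TT {B C : Type} [CommRing B] [CommRing C] (φ : B →+* C) (w : Option β → B)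
    (u : Option β → β → B) (σ : Option β → Option β) :
    φ (TT w u σ) = TT (fun a => φ (w a)) (fun a l => φ (u a l)) σ := by
  simp only [TT, ee, mon, map_prod, map_mul, map_pow]

theorem killed (p : Option β × β) (r : β) :
    X (.inr (.inr (p, r))) * TT xw xu id ∈ II β := by
  rw [← Ideal.Quotient.eq_zero_iff_mem, map_mul, map_TT]
  set φ := Ideal.Quotient.mk (II β)
  have hw : ∀ a : Option β, φ (xw a) ^ 3 = 0 := by
    intro a
    have h1 := gen_zero (β := β) (.inl (a, true))
    have h2 := gen_zero (β := β) (.inl (a, false))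
    simp only [gen, map_pow] at h1 h2
    simp only [xw, map_add]
    linear_combination (φ (X (.inl (a, true))) + 3 * φ (X (.inl (a, false)))) * h1 +
      (φ (X (.inl (a, false))) + 3 * φ (X (.inl (a, true)))) * h2
  have hf : ∀ l : β, ∑ a, φ (xw a) * φ (xu a l) = 0 := by
    intro l
    have h1 := gen_zero (β := β) (.inr (.inl l))
    simpa only [gen, map_sum, map_mul] using h1
  have h2 : IsUnit (2 : MvPolynomial (Var β) ℚ ⧸ II β) := by
    have : IsUnit (2 : ℚ) := by norm_num
    have h := this.map (algebraMap ℚ (MvPolynomial (Var β) ℚ ⧸ II β))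
    rwa [map_ofNat] at h
  obtain ⟨t, ht1, ht2⟩ := dual _ _ hw hf h2 p.1 p.2
  have hF := gen_zero (β := β) (.inr (.inr r))
  simp only [gen, map_sum, map_mul] at hF
  have h3 := congrArg (fun x => t * x) hF
  simp only [mul_zero, mul_sum] at h3
  rw [sum_eq_single p] at h3
  · rw [← ht1]
    linear_combination h3
  · intro q _ hq
    rw [← mul_assoc, ht2 q.1 q.2 hq, zero_mul]
  · simp

/-- the test ring: all squares of variables are zero -/
abbrev Tst (β : Type) : Type :=
  MvPolynomial ((Option β × Bool) ⊕ β) ℚ ⧸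
    Ideal.span (Set.range fun i => (X i ^ 2 : MvPolynomial ((Option β × Bool) ⊕ β) ℚ))

noncomputable def ty (i : (Option β × Bool) ⊕ β) : Tst β := Ideal.Quotient.mk _ (X i)

omit [Fintype β] [DecidableEq β] in
theorem ty_sq (i : (Option β × Bool) ⊕ β) : ty i ^ 2 = 0 := by
  rw [ty, ← map_pow]
  exact Ideal.Quotient.eq_zero_iff_mem.2 (Ideal.subset_span ⟨i, rfl⟩)

theorem ty_prod : ∏ i : (Option β × Bool) ⊕ β, ty i ≠ 0 := by
  intro h
  simp only [ty] at h
  rw [← map_prod, Ideal.Quotient.eq_zero_iff_mem] at h
  let m : ((Option β × Bool) ⊕ β) →₀ ℕ := ∑ i, Finsupp.single i 1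
  have hm : ∀ i, m i = 1 := by
    intro i
    simp only [m, Finsupp.finsetSum_apply, Finsupp.single_apply]
    rw [sum_ite_eq' univ i (fun _ => 1), if_pos (mem_univ i)]
  have key : ∀ p ∈ Ideal.span (Set.range fun i =>
      (X i ^ 2 : MvPolynomial ((Option β × Bool) ⊕ β) ℚ)), ∀ q, coeff m (q * p) = 0 := by
    intro p hp
    induction hp using Submodule.span_induction with
    | mem x hx =>
      obtain ⟨i, rfl⟩ := hx
      intro q
      simp only
      rw [X_pow_eq_monomial, coeff_mul_monomial', if_neg]
      intro hle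
      have := hle i
      rw [hm, Finsupp.single_eq_same] at this
      omega
    | zero => simp
    | add x y _ _ hx hy => intro q; rw [mul_add, coeff_add, hx, hy, add_zero]
    | smul a x _ hx => intro q; rw [smul_eq_mul, ← mul_assoc, hx]
  have h1 := key _ h 1
  have h2 : ∏ i : (Option β × Bool) ⊕ β, (X i : MvPolynomial ((Option β × Bool) ⊕ β) ℚ) =
      monomial m 1 := by
    simp only [m]
    rw [monomial_sum_one]
    rfl
  rw [one_mul, h2, coeff_monomial, if_pos rfl] at h1
  exact one_ne_zero h1

noncomputable def sub (σ : Option β → Option β) : Var β → Tst β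
  | .inl i => ty (.inl i)
  | .inr (.inl p) => if p.1 = σ (some p.2) then ty (.inr p.2) else 0
  | .inr (.inr _) => 0

noncomputable def ψ (σ : Option β → Option β) : MvPolynomial (Var β) ℚ →ₐ[ℚ] Tst β :=
  aeval (sub σ)

noncomputable def tw (a : Option β) : Tst β := ty (.inl (a, true)) + ty (.inl (a, false))

theorem ψ_w (σ : Option β → Option β) (a : Option β) : ψ σ (xw a) = tw a := by
  simp [ψ, xw, sub, tw]

theorem ψ_u (σ : Option β → Option β) (a : Option β) (l : β) :
    ψ σ (xu a l) = if a = σ (some l) then ty (.inr l) else 0 := by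
  simp [ψ, xu, sub]

theorem ψ_agree (σ τ : Option β → Option β) (l : β) (h : ∀ j, j ≠ l → σ (some j) = τ (some j))
    (p : MvPolynomial (Var β) ℚ) : ty (.inr l) * ψ σ p = ty (.inr l) * ψ τ p := by
  induction p using MvPolynomial.induction_on with
  | C a => simp [ψ]
  | add p q hp hq => rw [map_add, map_add, mul_add, mul_add, hp, hq]
  | mul_X p i hp =>
    have hi : ty (.inr l) * ψ σ (X i) = ty (.inr l) * ψ τ (X i) := by
      rcases i with i | ⟨a, j⟩ | i
      · simp [ψ, sub]
      · by_cases hj : j = l
        · subst hj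
          have := ty_sq (β := β) (.inr j)
          rw [sq] at this
          simp only [ψ, aeval_X, sub]
          split_ifs <;> simp [this]
        · simp [ψ, sub, h j hj]
      · simp [ψ, sub]
    rw [map_mul, map_mul]
    linear_combination ψ σ (X i) * hp + ψ τ p * hi

noncomputable def Φ (p : MvPolynomial (Var β) ℚ) : Tst β :=
  ∑ σ : Equiv.Perm (Option β), ((Equiv.Perm.sign σ : ℤ) : Tst β) * (ψ σ p * tw (σ none))

theorem Φ_gen (i : Gen β) (q : MvPolynomial (Var β) ℚ) : Φ (q * gen i) = 0 := by
  rcases i with i | l | r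
  · refine sum_eq_zero fun σ _ => ?_
    have : ψ σ (gen (.inl i)) = 0 := by
      simp only [gen, map_pow, ψ, aeval_X, sub]
      exact ty_sq _
    rw [map_mul, this]
    ring
  · have hg : ∀ σ : Option β → Option β,
        ψ σ (gen (.inr (.inl l))) = tw (σ (some l)) * ty (.inr l) := by
      intro σ
      simp only [gen, map_sum, map_mul, ψ_w, ψ_u]
      rw [sum_eq_single (σ (some l))]
      · simp
      · intro b _ hb
        simp [hb]
      · simp
    unfold Φ
    refine sum_involution (fun σ _ => σ * Equiv.swap none (some l)) ?_ ?_ ?_ ?_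
    · intro σ _
      rw [Equiv.Perm.sign_mul, Equiv.Perm.sign_swap (by simp), map_mul, map_mul, hg, hg]
      have h1 := ψ_agree σ (σ * Equiv.swap none (some l) : Equiv.Perm (Option β)) l (by
        intro j hj
        rw [Equiv.Perm.mul_apply, Equiv.swap_apply_of_ne_of_ne (by simp) (by simpa using hj)]) q
      simp only [Equiv.Perm.mul_apply, Equiv.swap_apply_left, Equiv.swap_apply_right]
      push_cast at h1 ⊢
      linear_combination ((Equiv.Perm.sign σ : ℤ) : Tst β) * tw (σ none) * tw (σ (some l)) * h1
    · intro σ _ _ e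
      have := congrArg (fun τ : Equiv.Perm (Option β) => τ none) e
      simp at this
    · intro σ _
      exact mem_univ _
    · intro σ _
      simp [mul_assoc]
  · refine sum_eq_zero fun σ _ => ?_
    have : ψ σ (gen (.inr (.inr r))) = 0 := by
      simp [gen, ψ, sub]
    rw [map_mul, this]
    ring

theorem Φ_II (p : MvPolynomial (Var β) ℚ) (hp : p ∈ II β) : ∀ q, Φ (q * p) = 0 := by
  induction hp using Submodule.span_induction with
  | mem x hx =>
    obtain ⟨i, rfl⟩ := hx
    exact Φ_gen i
  | zero => intro q; simp [Φ]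
  | add x y _ _ hx hy =>
    intro q
    have h1 := hx q
    have h2 := hy q
    unfold Φ at h1 h2 ⊢
    simp only [mul_add, map_add, add_mul, sum_add_distrib]
    rw [h1, h2, add_zero]
  | smul a x _ hx => intro q; rw [smul_eq_mul, ← mul_assoc, hx]

theorem Φ_s : Φ (TT xw xu id : MvPolynomial (Var β) ℚ) ≠ 0 := by
  have hψ : ∀ σ : Option β → Option β, ψ σ (TT xw xu id) =
      ee tw none * ∏ l, (if some l = σ (some l) then ty (.inr l) else 0) := by
    intro σ
    have := map_TT (ψ σ : MvPolynomial (Var β) ℚ →+* Tst β) xw xu id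
    simp only [RingHom.coe_coe, ψ_w, ψ_u] at this
    rw [this]
    rfl
  unfold Φ
  rw [sum_eq_single 1]
  · rw [hψ]
    simp only [Equiv.Perm.coe_one, id, if_true, Equiv.Perm.sign_one, Units.val_one, Int.cast_one,
      one_mul]
    have e1 : ee tw none * tw none = ∏ a : Option β, (2 * ∏ b : Bool, ty (.inl (a, b))) := by
      rw [ee, mon_mul, mon]
      refine prod_congr rfl fun a _ => ?_
      have : (if a = none then (if a = none then 1 else 2) + 1 else if a = none then 1 else 2) = 2 := by
        split_ifs <;> rfl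
      rw [this, Fintype.prod_bool, tw]
      linear_combination ty_sq (β := β) (.inl (a, true)) + ty_sq (β := β) (.inl (a, false))
    have e2 : (ee tw none * ∏ l : β, ty (.inr l)) * tw none =
        2 ^ Fintype.card (Option β) * ∏ i : (Option β × Bool) ⊕ β, ty i := by
      rw [mul_right_comm, e1, prod_mul_distrib, prod_const, card_univ, Fintype.prod_sum_type,
        Fintype.prod_prod_type, mul_assoc]
    rw [e2]
    have h2 : IsUnit (2 : Tst β) := by
      have : IsUnit (2 : ℚ) := by norm_num
      have h := this.map (algebraMap ℚ (Tst β))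
      rwa [map_ofNat] at h
    intro h
    exact ty_prod ((h2.pow _).mul_right_eq_zero.1 h)
  · intro σ _ hσ
    have : ∃ l, some l ≠ σ (some l) := by
      by_contra hcon
      push Not at hcon
      apply hσ
      ext1 a
      cases a with
      | some l => exact (hcon l).symm
      | none =>
        cases h : σ none with
        | none => rfl
        | some l =>
          rw [hcon l] at h
          exact absurd (σ.injective h) (by simp)
    obtain ⟨l, hl⟩ := this
    rw [hψ, prod_eq_zero (mem_univ l) (if_neg hl)]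
    ring
  · simp

theorem s_notMem : (TT xw xu id : MvPolynomial (Var β) ℚ) ∉ II β := fun h =>
  Φ_s (by simpa using Φ_II _ h 1)

open CategoryTheory in
/-- For every `k` there are `4k+2` quadrics generating a proper ideal whose quotient has
projective dimension at least `(k+1)k^2`. -/
theorem main (k : ℕ) : ∃ (N : ℕ) (f : Fin (4 * k + 2) → MvPolynomial (Fin N) ℚ),
    (∀ i, (f i).IsHomogeneous 2) ∧ Ideal.span (Set.range f) ≠ ⊤ ∧
    ∀ c, c < (k + 1) * k ^ 2 → ¬ HasProjectiveDimensionLT (ModuleCat.of (MvPolynomial (Fin N) ℚ)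
      (MvPolynomial (Fin N) ℚ ⧸ Ideal.span (Set.range f))) (c + 1) := by
  let e := Fintype.equivFin (Var (Fin k))
  have hc : Fintype.card (Gen (Fin k)) = 4 * k + 2 := by
    simp [Gen]
    ring
  let g : Fin (4 * k + 2) ≃ Gen (Fin k) := (Fintype.equivFinOfCardEq hc).symm
  let ρ := renameEquiv ℚ e
  have hspan : Ideal.span (Set.range fun i => rename e (gen (g i))) =
      (II (Fin k)).map (ρ : MvPolynomial (Var (Fin k)) ℚ →+* _) := by
    rw [II, Ideal.map_span, ← Set.range_comp]
    congr 1
    exact (g.surjective.range_comp (fun j => rename e (gen j)))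
  have hmem : ∀ p, ρ p ∈ Ideal.span (Set.range fun i => rename e (gen (g i))) ↔
      p ∈ II (Fin k) := by
    intro p
    rw [hspan]
    constructor
    · intro h
      obtain ⟨q, hq, hq'⟩ := (Ideal.mem_map_iff_of_surjective _ ρ.surjective).1 h
      rwa [← ρ.injective hq']
    · exact Ideal.mem_map_of_mem _
  refine ⟨_, fun i => rename e (gen (g i)), fun i => (gen_hom _).rename_isHomogeneous, ?_, ?_⟩
  · intro h
    exact s_notMem ((hmem _).1 (h ▸ Submodule.mem_top))
  intro c hck hpd
  let L := (univ : Finset ((Option (Fin k) × Fin k) × Fin k)).toList.map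
    (fun p => e (.inr (.inr p)))
  have hL : L.Nodup := (Finset.nodup_toList _).map (fun p q h => by simpa using h)
  have hlen : L.length = (k + 1) * k ^ 2 := by
    simp [L]
    ring
  have h0 := no_socle c _ hpd _ (vars_regular L hL) (by rw [List.length_map, hlen]; exact hck)
    (Ideal.Quotient.mk _ (ρ (TT xw xu id))) (by
      intro y hy
      simp only [L, List.mem_map] at hy
      obtain ⟨_, ⟨p, -, rfl⟩, rfl⟩ := hy
      have := (hmem _).2 (killed p.1 p.2)
      rw [map_mul] at this
      refine Ideal.Quotient.eq_zero_iff_mem.2 ?_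
      simpa [ρ] using this)
  exact s_notMem ((hmem _).1 (Ideal.Quotient.eq_zero_iff_mem.1 h0))

end Pool.Agent.H651Z.PD
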